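import Pool.Agent.Q99.FAL.Stm2

/-!
# Fully augmented links, part C: analysis

A net consists of a lattice `L` of integer vectors and a point `a0` (`c` belts, six angles each).
The state sum is the sum of `∏_b wt6 N (w b) (a b)` over the points `a` of `(N - 1) a0 + L` (all
other angles `< 0` or `≥ N` give `0`).  An angle structure is a real point of `a0 + ℝ L` with
non-negative angles and all triangle sums `1 / 2`.  `LL x = ∫_0^x log |2 sin π t| dt`.

Conventions of Lean which are used on purpose: `Real.log 0 = 0`, `x / 0 = 0`, so `tan (π / 2) = 0`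
and `log (tan 0) = log (tan (π / 2)) = log (cos (π / 2)) = 0`.
-/

set_option autoImplicit false

namespace Pool.Agent.Q99.FAL

open Matrix Finset Filter Topology MeasureTheory
open Pool.Agent.Q191.TW (cs)
open Pool.Agent.W719.BS (D LL)

/-! ### one `q`-binomial coefficient -/

/-- the growth rate of `[n, k]` at `n = N / 2`, `k = N x` -/
noncomputable def hh (x : ℝ) : ℝ := -(LL x + LL (1 / 2 - x))

/-- **global Gaussian bound.**

Proof.  `bq N n k = Tri N k (n-k) (N-1-n)` (`0` unless all are `≥ 0`).  This is `S_TT` of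
`FW/Stm.lean` (proved by helper151 in `Q151/FW/TriA.lean` for `α = 1/6`) for the centre
`(α, 1/2 - α, 1/2)` instead of `(1/6, 1/3, 1/2)`; the linear part
`-log(2 sin πα)(x - αN) - log(2 cos πα)(y - (1/2-α)N) - log 2 (z - N/2)` with `x = k`, `y = n - k`,
`z = N - 1 - n` is `-log tan(πα) (k - αN) - log cos(πα) (n - N/2) + log 2`.
The lower bound `D n ≥ c e^{N LL(n/N)} max(1, √(N sin(πn/N)))` (see `pp_bound` in `TriA.lean`)
reduces this to `F(x,y,z) = -LL x - LL y - LL z ≤ tangent plane at the centre - κ |(x,y,z) - c|²`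
on the simplex `x + y + z = 1`, `x, y, z ≥ 0` (the factor `N^{3/2}` near the boundary is absorbed by
a part of `κ`).  Soft proof of this: `F` is continuous and concave on the simplex (its Hessian on
the tangent space is `-π (cot(πx) dx² + cot(πy) dy² + cot(πz) dz²)`, `dx + dy + dz = 0`, negative
definite in the interior because `cot πx cot πy + cot πy cot πz + cot πz cot πx = 1` and at most one
of the three is negative), so `F - tangent ≤ - κ₁ |·|²` near the centre and, by concavity along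
segments from the centre, `≤ - κ₂ |·|` hence `≤ - κ |·|²` elsewhere. -/
def S_T1 : Prop := ∀ α : ℝ, 0 < α → α < 1 / 2 → ∃ C κ : ℝ, 0 ≤ C ∧ 0 < κ ∧
  ∀ (N : ℕ) (n k : ℤ), 1 ≤ N → √N * bq N n k ≤ C * Real.exp (N * hh α -
    Real.log (Real.tan (Real.pi * α)) * (k - N * α) -
    Real.log (Real.cos (Real.pi * α)) * (n - N / 2) -
    κ * (((k : ℝ) - N * α) ^ 2 + ((n : ℝ) - N / 2) ^ 2) / N)

/-- **limit on the scale `√N`** (as `S_TL` of `FW/Stm.lean`, `Q151/FW/TriA.lean`): the constant is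
`2 (8 sin πα cos πα)^{-1/2} = (sin 2πα)^{-1/2}`. -/
def S_T2 : Prop := ∀ α : ℝ, 0 < α → α < 1 / 2 → ∀ (n k : ℕ → ℤ) (X Y : ℝ),
  Tendsto (fun N : ℕ => ((k N : ℝ) - N * α) / √N) atTop (𝓝 X) →
  Tendsto (fun N : ℕ => ((n N : ℝ) - N / 2) / √N) atTop (𝓝 Y) →
  Tendsto (fun N : ℕ => √N * bq N (n N) (k N) * Real.exp (-(N * hh α) +
    Real.log (Real.tan (Real.pi * α)) * (k N - N * α) +
    Real.log (Real.cos (Real.pi * α)) * (n N - N / 2))) atTop
    (𝓝 (1 / √(Real.sin (2 * Real.pi * α)) * Real.exp (-(Real.pi / 2) *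
      (Real.cot (Real.pi * α) * X ^ 2 + Real.tan (Real.pi * α) * (Y - X) ^ 2))))

/-! ### complex Gaussian integrals -/

/-- **a complex Gaussian integral does not vanish.**

Proof.  Let `Q τ = ∑ c_j ℓ_j(τ)²` (positive definite) and `B τ = ∑ e_k m_k(τ)²`.  There is a linear
change of variables (orthonormal basis for `Q` in which `B` is diagonal, spectral theorem) such that
`Q = ∑ x_i²`, `B = ∑ μ_i x_i²`; the integral is a non-zero constant times `∏_i ∫ exp(-(1 - i μ_i) x²)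
= ∏ (π / (1 - i μ_i))^{1/2} ≠ 0`. -/
def S_GI : Prop := ∀ (d J K : ℕ) (l : Fin J → (Fin d → ℝ) →ₗ[ℝ] ℝ) (m : Fin K → (Fin d → ℝ) →ₗ[ℝ] ℝ)
  (cf : Fin J → ℝ) (e : Fin K → ℝ), (∀ j, 0 < cf j) → (∀ τ, (∀ j, l j τ = 0) → τ = 0) →
  ∫ τ : Fin d → ℝ, Complex.exp ((-(∑ j, cf j * l j τ ^ 2) : ℝ) + (∑ k, e k * m k τ ^ 2 : ℝ) *
    Complex.I) ≠ 0

/-! ### nets -/

/-- a lattice and a point -/
structure Net (c : ℕ) where
  L : Submodule ℤ (Fin c → Fin 6 → ℤ)
  a0 : Fin c → Fin 6 → ℤ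

variable {c : ℕ}

/-- integer vectors as real vectors -/
def toR (a : Fin c → Fin 6 → ℤ) : Fin c → Fin 6 → ℝ := fun b i => (a b i : ℝ)

/-- the real span of the lattice -/
def Net.LR (X : Net c) : Submodule ℝ (Fin c → Fin 6 → ℝ) := Submodule.span ℝ (toR '' (X.L : Set _))

/-- a basis of a lattice of integer vectors is independent over `ℝ`.

Proof.  A submodule of a free `ℤ`-module of finite rank is free (`Module.finBasis` or
`Submodule.basisOfPid`).  If `∑ τ_j E_j = 0` with real `τ_j`, apply the coordinates `ℝ → ℚ` of a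
basis of `ℝ` over `ℚ`: rational relations, hence (clear denominators) integer relations; so all
coordinates of all `τ_j` vanish. -/
def S_LB : Prop := ∀ (c : ℕ) (X : Net c),
  ∃ E : Fin (Module.finrank ℤ X.L) → Fin c → Fin 6 → ℤ,
    (∀ t : Fin (Module.finrank ℤ X.L) → ℤ, (∑ j, t j • E j) ∈ X.L) ∧
    (∀ a ∈ X.L, ∃! t : Fin (Module.finrank ℤ X.L) → ℤ, a = ∑ j, t j • E j) ∧
    (∀ τ : Fin (Module.finrank ℤ X.L) → ℝ, (∑ j, τ j • toR (E j)) = 0 → τ = 0) ∧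
    (∀ x ∈ X.LR, ∃ τ : Fin (Module.finrank ℤ X.L) → ℝ, x = ∑ j, τ j • toR (E j))

/-- the angle structures -/
def Net.Ang (X : Net c) : Set (Fin c → Fin 6 → ℝ) :=
  {a | a - toR X.a0 ∈ X.LR ∧ (∀ b i, 0 ≤ a b i) ∧ ∀ b, n1 (a b) = 1 / 2 ∧ n2 (a b) = 1 / 2}

/-- the vector `e_{b,i} - e_{b,j}` -/
def eij (b : Fin c) (i j : Fin 6) : Fin c → Fin 6 → ℤ :=
  fun b' k => if b' = b then (if k = i then 1 else 0) - (if k = j then 1 else 0) else 0

/-- `p` is a positive angle structure: it vanishes only where all angle structures vanish.  The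
conditions `s3`, `s4` exclude degenerate belts. -/
structure Net.Good (X : Net c) (p : Fin c → Fin 6 → ℝ) : Prop where
  ang : p ∈ X.Ang
  zero : ∀ δ ∈ X.L, ∀ b i, p b i = 0 → δ b i = 0
  zero0 : ∀ b i, p b i = 0 → X.a0 b i = 0
  sum : ∀ δ ∈ X.L, ∀ b, n1 (δ b) + n2 (δ b) = 0
  sum0 : ∀ b, n1 (X.a0 b) + n2 (X.a0 b) = 1
  s1 : ∀ b, p b 1 = 0 ↔ p b 4 = 0
  s2 : ∀ b, p b 2 = 0 ↔ p b 5 = 0
  s3 : ∀ b, ¬ (p b 1 = 0 ∧ p b 2 = 0)
  s4 : ∀ b, ¬ (p b 0 = 0 ∧ p b 3 = 0 ∧ (p b 1 = 0 ∨ p b 2 = 0))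
  z1 : ∀ b, p b 1 ≠ 0 → eij b 1 4 ∈ X.L
  z2 : ∀ b, p b 2 ≠ 0 → eij b 2 5 ∈ X.L

/-- the volume functional (divided by `2 π`) -/
noncomputable def fV (a : Fin c → Fin 6 → ℝ) : ℝ := ∑ b, ∑ i, hh (a b i)

/-- the size of the `q`-binomial coefficient of the angle number `i` -/
def dn {R : Type} [AddCommMonoid R] (x : Fin 6 → R) (i : Fin 6) : R :=
  if i = 0 ∨ i = 4 ∨ i = 5 then n2 x else n1 x

/-- **the maximum is a positive angle structure.**

Proof.  `X.Ang` is closed (a subspace is closed in finite dimension) and bounded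
(`0 ≤ a b i ≤ 1/2`), `hh` is continuous on `[0, 1/2]` (`LL` is continuous), so there is a maximum
`a`.  If `p b i = 0` then `a b i = 0` (`a - p ∈ X.LR`, `zero` for the span).  Suppose
`a b i = 0 < p b i` for some `(b, i)`.  Let `a_t = (1 - t) a + t p ∈ X.Ang`.  The derivative of
`hh` is `- log tan (π x)` on `(0, 1/2)`, `hh` is concave, so for each `(b', i')` the derivative from
the right of `t ↦ hh (a_t b' i')` at `0` is finite if `a b' i' ∈ (0, 1/2)`, `0` if `p b' i' =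
a b' i'`, and `+∞` if `a b' i' = 0 < p b' i'` or `a b' i' = 1/2 > p b' i'`.  So `fV a_t > fV a` for
small `t`. -/
def S_MAX : Prop := ∀ (c : ℕ) (X : Net c) (p : Fin c → Fin 6 → ℝ), X.Good p →
  ∃ a ∈ X.Ang, (∀ b i, a b i = 0 ↔ p b i = 0) ∧ ∀ a' ∈ X.Ang, fV a' ≤ fV a

/-- **the maximum is critical in all directions.**

Proof.  Let `ℓ δ` be the sum.  Write `θ_i = π a b i`.  (1) If all `n1 (δ b) = n2 (δ b) = 0`: `a + t δ`
is an angle structure for small `|t|` (`δ b i = 0` where `a b i = 0`, and then also where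
`a b i = 1/2`, since the other two angles of the triangle are `0`), and `ℓ δ` is minus the
derivative of `fV` in the direction `δ` at the maximum (`hh' = - log tan π x`).
(2) In general subtract `∑_b n1 (δ b) e_b`, where `e_b = eij b 1 4` if `p b 1 ≠ 0` and
`e_b = eij b 2 5` otherwise (then `p b 2 ≠ 0` by `s3`): `n1 = 1`, `n2 = -1`.  It remains to see
`ℓ (e_b) = 0`.  For `e_b = eij b 1 4` it is the logarithm of
`(tan θ1 cos θ1 cos θ2 cos θ3) / (tan θ4 cos θ0 cos θ4 cos θ5)`, `θ0+θ1+θ2 = π/2 = θ3+θ4+θ5`.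
If `θ2, θ5 ≠ 0`: by (1) for `δ = eij b 1 4 - eij b 2 5`: `tan θ1 tan θ5 = tan θ4 tan θ2`; with
`cos θ0 = sin (θ1+θ2) = cos θ1 cos θ2 (tan θ1 + tan θ2)`, `cos θ3 = cos θ4 cos θ5 (tan θ4 + tan θ5)`
the quotient is `1` (here no angle of the belt is `π/2`: `θ1, θ4, θ2, θ5 ≠ 0`).  If `θ2 = θ5 = 0`:
`cos θ0 = sin θ1`, `cos θ3 = sin θ4`, so the quotient is `1` unless `θ1` or `θ4` is `π/2`.  If
`θ1 = π/2`, `θ0 = 0` (then by `s4` `θ3 ≠ 0`, `θ4 ≠ π/2`): `ℓ (e_b) = - log tan θ4 + log cos θ3 -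
log cos θ4 = 0`; if `θ4 = π/2`, `θ3 = 0`: `ℓ (e_b) = log tan θ1 + log cos θ1 - log cos θ0 = 0`.
For `e_b = eij b 2 5` (`θ1 = θ4 = 0`) the same with `θ2`, `θ5`. -/
def S_CR : Prop := ∀ (c : ℕ) (X : Net c) (p : Fin c → Fin 6 → ℝ), X.Good p →
  ∀ a ∈ X.Ang, (∀ b i, a b i = 0 ↔ p b i = 0) → (∀ a' ∈ X.Ang, fV a' ≤ fV a) →
  ∀ δ ∈ X.LR, ∑ b, ∑ i, (Real.log (Real.tan (Real.pi * a b i)) * δ b i +
    Real.log (Real.cos (Real.pi * a b i)) * dn (δ b) i) = 0

/-- the number of the angles of `p` which are not `0` or `1/2` -/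
noncomputable def nV (p : Fin c → Fin 6 → ℝ) : ℕ :=
  Nat.card {q : Fin c × Fin 6 // p q.1 q.2 ≠ 0 ∧ p q.1 q.2 ≠ 1 / 2}

/-- a term of the state sum -/
noncomputable def tN (w : Fin c → ℝ) (N : ℕ) (a : Fin c → Fin 6 → ℤ) : ℂ :=
  ∏ b, wt6 N (w b) (a b)

/-- the limit of the normalized terms, up to a constant -/
noncomputable def gau (w : Fin c → ℝ) (a : Fin c → Fin 6 → ℝ) (x : Fin c → Fin 6 → ℝ) : ℂ :=
  Complex.exp ((-(∑ b, ∑ i, Real.pi / 2 * (Real.cot (Real.pi * a b i) * x b i ^ 2 +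
    Real.tan (Real.pi * a b i) * (dn (x b) i - x b i) ^ 2)) : ℝ) +
    (∑ b, Real.pi * w b / 4 * (n1 (x b) - n2 (x b)) ^ 2 : ℝ) * Complex.I)

/-- `a` is the maximum -/
def Net.Top (X : Net c) (p a : Fin c → Fin 6 → ℝ) : Prop :=
  a ∈ X.Ang ∧ (∀ b i, a b i = 0 ↔ p b i = 0) ∧ ∀ a' ∈ X.Ang, fV a' ≤ fV a

/-- **Gaussian bound of the terms.**

Proof.  `s = a' - (N - 1) a0 ∈ L`, `a' - (N-1) a ∈ X.LR`.  Angles `(b, i)` with `a b i = 0`: `a' b i =
0`, `bq n 0 ≤ 1` (`= 1` or `0`).  `(b, i)` with `a b i = 1/2`: the other two angles of the triangle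
vanish, `i ≠ 0, 3` (by `s3`, `s1`, `s2`), so `dn (a' b) i = a' b i` and `bq n n ≤ 1`.  For the others
`S_T1` (`α = a b i`, `n = dn (a' b) i`, `k = a' b i`).  The linear parts add up to
`- ℓ (a' - N a) = ℓ (a)` (`ℓ` of `S_CR`; `a' - N a = (a' - (N-1) a) - a`; `dn (a b) i = 1/2`), a
constant; the `N hh` to `N fV a` (`hh 0 = hh (1/2) = 0`).  The quadratic parts control all
`(a' b i - N a b i)²`: for angles with `a b i = 0` nothing is needed, for `a b i = 1/2` one has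
`a' b i = n1` or `n2` and `n1 (a' b) + n2 (a' b) = N - 1`, and some other angle of the belt is not in
`{0, 1/2}` by `s4` (so `n1` or `n2` is controlled). -/
def S_NB : Prop := S_T1 → S_CR → ∀ (c : ℕ) (X : Net c) (p a : Fin c → Fin 6 → ℝ) (w : Fin c → ℝ),
  X.Good p → X.Top p a → ∃ C κ : ℝ, 0 < κ ∧ ∀ N : ℕ, 1 ≤ N → ∀ a' : Fin c → Fin 6 → ℤ,
  a' - ((N : ℤ) - 1) • X.a0 ∈ X.L →
  ‖(((√N ^ nV p * Real.exp (-(N * fV a)) : ℝ) : ℂ)) * tN w N a'‖ ≤
    C * Real.exp (-κ * ((∑ b, ∑ i, ((a' b i : ℝ) - N * a b i) ^ 2) / N))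

/-- **limits of the terms.**

Proof.  As `S_NB` with `S_T2`; `cs N (w z² / 4) → exp (i π w ζ² / 4)` if `z / √N → ζ`; for
`a b i = 0`: `a' b i = 0`, `bq N n 0 = 1` for large `N` (`n ~ N / 2`); for `a b i = 1/2`:
`bq N n n = 1` for large `N`.  (The terms of `gau` with `a b i ∈ {0, 1/2}` vanish: for `a b i = 0`
`x b i = 0` and `tan 0 = 0`, `cot (π/2) = 0` and `tan (π/2) = 0` in Lean.) -/
def S_NL : Prop := S_T2 → S_CR → ∀ (c : ℕ) (X : Net c) (p a : Fin c → Fin 6 → ℝ) (w : Fin c → ℝ),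
  X.Good p → X.Top p a → ∃ c0 : ℝ, 0 < c0 ∧ ∀ (a' : ℕ → Fin c → Fin 6 → ℤ) (x : Fin c → Fin 6 → ℝ),
  (∀ N : ℕ, a' N - ((N : ℤ) - 1) • X.a0 ∈ X.L) →
  (∀ b i, Tendsto (fun N : ℕ => ((a' N b i : ℝ) - N * a b i) / √N) atTop (𝓝 (x b i))) →
  Tendsto (fun N : ℕ => (((√N ^ nV p * Real.exp (-(N * fV a)) : ℝ) : ℂ)) * tN w N (a' N)) atTop
    (𝓝 (c0 * gau w a x))

open Classical in
/-- the state sum of a net -/
noncomputable def Net.Z (X : Net c) (w : Fin c → ℝ) (N : ℕ) : ℂ :=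
  ∑ a : Fin c → Fin 6 → Fin N,
    if (fun b => zz (a b)) - ((N : ℤ) - 1) • X.a0 ∈ X.L then tN w N (fun b => zz (a b)) else 0

/-- **asymptotics of the state sum.**

Proof.  `S_MAX` gives `a`; `fV a` is the supremum.  `S_LB`: basis `E` of `L`; `a = a0 + ∑ τ_j E_j`
for some real `τ` (`a - a0 ∈ X.LR`).  `tN w N a' = 0` unless `0 ≤ a' b i < N`, so
`Z = ∑'_{t ∈ ℤ^d} tN w N ((N - 1) a0 + ∑ t_j E_j)`.  Apply `Pool.Agent.Q99.FW.riemann` (`FW/Ts.lean`)
with `c := τ` to the normalized terms: `a' - N a = - a0 + ∑ (t_j - N τ_j) E_j`, so `S_NB` and the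
independence of the `E_j` over `ℝ` give the bound (the shift by `a0` is bounded), and `S_NL` the
limit `c0 gau w a (∑ u_j E_j)`.  The integral is non-zero by `S_GI`: the quadratic form in `gau` is
positive definite on `X.LR`: if it vanishes then `x b i = 0` for all angles with `a b i ∉ {0, 1/2}`,
and `n1 (x b) = 0` or `n2 (x b) = 0`, hence both (`n1 + n2 = 0`), hence `x = 0`
(`x b i = dn (x b) i` for the angles `1/2`). -/
def S_NET : Prop := S_T1 → S_T2 → S_GI → S_LB → S_MAX → S_CR → S_NB → S_NL →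
  ∀ (c : ℕ) (X : Net c) (p : Fin c → Fin 6 → ℝ) (w : Fin c → ℝ), X.Good p → ∃ z : ℂ, z ≠ 0 ∧
  Tendsto (fun N : ℕ => ((√N ^ nV p / √N ^ Module.finrank ℤ X.L *
    Real.exp (-(N * sSup (fV '' X.Ang))) : ℝ) : ℂ) * X.Z w N) atTop (𝓝 z)

end Pool.Agent.Q99.FAL
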