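import Pool.Agent.Q261.FAL.EU
import Pool.Agent.Q261.FAL.EW
import Pool.Agent.Q24.FAL.UN
import Pool.Agent.Q24.FAL.ZC
import Pool.Agent.Q24.FAL.Bas
import Pool.Agent.Q2.FAL.XZ
import Pool.Agent.Q2.FAL.QV
import Pool.Agent.Q2.FAL.ZD
import Pool.Agent.Q299.FAL.LB
import Pool.Agent.Q299.FAL.CN
import Pool.Agent.Q299.FAL.NET
import Pool.Agent.Q299.FAL.GI
import Pool.Agent.Q299.FAL.XC
import Pool.Agent.Q299.FAL.XD
import Pool.Agent.Q299.FAL.CR
import Pool.Agent.Q299.FAL.DIM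
import Pool.Agent.Q299.FAL.SP
import Pool.Agent.Q299.FAL.F1
import Pool.Agent.Q149.FAL.UNR
import Pool.Agent.Q149.FAL.PER
import Pool.Agent.Q98.FAL.CUP
import Pool.Agent.Q98.FAL.CAP
import Pool.Agent.Q246.FAL.REG
import Pool.Agent.Q224.FAL.TRa
import Pool.Agent.Q224.FAL.TRb
import Pool.Agent.Q224.FAL.TRc
import Pool.Agent.Q224.FAL.GD
import Pool.Agent.Q224.FAL.VC
import Pool.Agent.Q151.FAL.G
import Pool.Agent.Q151.FAL.T12
import Pool.Agent.Q151.FAL.MAX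
import Pool.Agent.Q280.FAL.NB
import Pool.Agent.Q280.FAL.NL
import Pool.Agent.Q162.FAL.Z
import Pool.Agent.Q162.FAL.J
import Pool.Agent.Q237.FAL.OZ
import Pool.Agent.Q237.FAL.SUR
import Pool.Agent.Q237.FAL.SO
import Pool.Agent.Q237.FAL.NC

/-!
# Fully augmented links: assembly
-/

set_option autoImplicit false

namespace Pool.Agent.Q99.FAL

open Finset Filter Topology
open Pool.Agent.W715.VC (rt)
open Pool.Agent.W709.QAT (Piece run)

theorem t_EW : S_EW := fun _ N hN n1 s h0 h1 =>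
  ⟨Pool.Agent.Q261.FAL.ew_E hN n1 s h0 h1, Pool.Agent.Q261.FAL.ew_F hN n1 s h0 h1⟩

theorem t_F1 : F1 :=
  Pool.Agent.Q299.FAL.task_F1 Pool.Agent.Q2.FAL.task_XZ Pool.Agent.Q24.FAL.task_UN
    Pool.Agent.Q299.FAL.task_XC Pool.Agent.Q299.FAL.task_XD Pool.Agent.Q24.FAL.task_ZC
    Pool.Agent.Q24.FAL.task_ZW Pool.Agent.Q2.FAL.task_ZD Pool.Agent.Q261.FAL.task_EU t_EW
    Pool.Agent.Q24.FAL.task_ZU Pool.Agent.Q2.FAL.task_QV Pool.Agent.Q2.FAL.task_QB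

theorem t_TR : ∀ T : Ty, TR T := by
  intro T
  cases T
  · exact Pool.Agent.Q224.FAL.task_TR_V
  · exact Pool.Agent.Q224.FAL.task_TR_H
  · exact Pool.Agent.Q224.FAL.task_TR_YL
  · exact Pool.Agent.Q224.FAL.task_TR_YR
  · exact Pool.Agent.Q224.FAL.task_TR_LL
  · exact Pool.Agent.Q224.FAL.task_TR_LR

theorem t_TRall : TRall := fun T => t_TR T Pool.Agent.Q149.FAL.task_PER Pool.Agent.Q98.FAL.task_CUP
  Pool.Agent.Q98.FAL.task_CAP Pool.Agent.Q246.FAL.task_REG t_F1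

/-- **the volume conjecture for fully augmented links**, in the notation of `Stm4.lean` -/
theorem vc : ∀ D : List Pc, Val D 1 → Pri D 1 → D ≠ [] → (∃ p, Pos D p) → ∃ z : ℝ, 0 < z ∧
    Tendsto (fun N : ℕ => ‖run N (rt N) (D.flatMap els)
      (fun l => if l.map (fun x => (x : ℕ)) = [0] then 1 else 0)
        (if h : 0 < N then [⟨0, h⟩] else [])‖ /
      (N * √N * Real.exp (N * sSup (fV '' AS D)))) atTop (𝓝 z) :=
  Pool.Agent.Q224.FAL.task_VC Pool.Agent.Q162.FAL.task_J task_G t_TRall Pool.Agent.Q162.FAL.task_Z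
    Pool.Agent.Q224.FAL.task_GD Pool.Agent.Q237.FAL.task_SO Pool.Agent.Q237.FAL.task_OZ
    Pool.Agent.Q237.FAL.task_SUR Pool.Agent.Q237.FAL.task_NC Pool.Agent.Q299.FAL.task_SP
    Pool.Agent.Q299.FAL.task_DIM Pool.Agent.Q299.FAL.task_CN Pool.Agent.Q149.FAL.task_UNR
    Pool.Agent.Q299.FAL.task_NET task_T1 task_T2 Pool.Agent.Q299.FAL.task_GI
    Pool.Agent.Q299.FAL.task_LB task_MAX Pool.Agent.Q299.FAL.task_CR Pool.Agent.Q280.FAL.task_NB
    Pool.Agent.Q280.FAL.task_NL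

end Pool.Agent.Q99.FAL
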