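import Pool.Agent.Q99.FW.Dia

/-!
# Fully augmented links, part A: the operator of an encircled twist region in the Fourier basis

Everything at the root of unity `v = rt N = exp (π i / N)`, `cs N r = exp (π i r / N) = v ^ r`,
`ω = v ^ 2`, `{n} = v ^ n - v ^ (-n)` (`= br (rt N) n = 2 i sin (π n / N)`), `{N - n} = {n}`.

`[n, k] = bq N n k = D n / (D k D (n - k))`, zero unless `0 ≤ k ≤ n ≤ N - 1`, is the (real, positive)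
`q`-binomial coefficient.  It satisfies, for all integers `k` and `0 ≤ n ≤ N - 1`,

  `{k} [n, k] = {n - k + 1} [n, k - 1]`   (PASCAL),

which is used below in the forms `{k + 1} [n, k + 1] = {n - k} [n, k]`.

`u_s = ∑_x ph N 0 s x e_x` is the Fourier basis of the first strand, `u'_s = ∑_x ph N 1 s x e_x` of
the second strand, `uv N i j = u_i ⊗ u'_j`.  These depend on `i`, `j` modulo `N` only.
-/

set_option autoImplicit false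

namespace Pool.Agent.Q99.FAL

open Matrix Finset
open Pool.Agent.H550R3.Jones (WM IsMod IsInt br brf W irr)
open Pool.Agent.W715.VC (rt)
open Pool.Agent.W709.QAT (Piece run)
open Pool.Agent.Q191.TW (cs)
open Pool.Agent.Q191.LB (sg)
open Pool.Agent.Q191.SH (aw)
open Pool.Agent.Q99.FW (TZ Kg K2 Xm)

/-- the entry `x` of the Fourier basis vector `s` of a strand in position `k` -/
noncomputable def ph (N : ℕ) (k s x : ℤ) : ℂ :=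
  cs N (-((x : ℝ) ^ 2 / 2 + ((N : ℝ) - 1) * k * x + 2 * s * x))

/-- `u_i ⊗ u'_j` -/
noncomputable def uv (N : ℕ) (i j : ℤ) : Fin N × Fin N → ℂ :=
  fun p => ph N 0 i (p.1 : ℕ) * ph N 1 j (p.2 : ℕ)

/-- `ω ^ k` -/
noncomputable def om (N : ℕ) (k : ℤ) : ℂ := cs N (2 * k)

/-- the `q`-binomial coefficient `[n, k]` -/
noncomputable def bq (N : ℕ) (n k : ℤ) : ℝ := TZ N k (n - k) ((N : ℤ) - 1 - n)

/-- `w_s ∈ V ⊗ V` -/
noncomputable def wv (N : ℕ) (n1 s : ℤ) : Fin N × Fin N → ℂ :=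
  ∑ a ∈ range N, ∑ b ∈ range N, (cs N (((N : ℝ) - 1) * (a + 2 * b)) *
    ((bq N n1 a * bq N (N - 1 - n1) b * bq N (N - 1 - n1) (a + b) : ℝ) : ℂ)) •
      uv N (s + a + b) (s + b)

/-- the image of `u_i ⊗ u'_j` under the operator number `n1` -/
noncomputable def zv (N : ℕ) (n1 i j : ℤ) : Fin N × Fin N → ℂ :=
  ∑ b ∈ range N, (cs N (((N : ℝ) - 1) * (((j - i - 1) % N : ℤ) + 2 * b + 1)) *
    ((bq N (N - 1 - n1) ((j - i - 1) % N) * bq N n1 b * bq N n1 ((j - i - 1) % N + b) : ℝ) : ℂ)) •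
      wv N n1 (j + b)

/-- the operator number `n1` -/
noncomputable def Zm (N : ℕ) (n1 : ℤ) : Matrix (Fin N × Fin N) (Fin N × Fin N) ℂ :=
  fun p q => ((N : ℂ) ^ 2)⁻¹ *
    ∑ i ∈ range N, ∑ j ∈ range N, (uv N i j q)⁻¹ * zv N n1 i j p

/-! ### the action of `E` and `F` -/

/-- `E` and `F` on `u_i ⊗ u'_j`.

Proof.  On one strand (both positions; position `1` is position `0` with `s` replaced by the real
number `s + (N - 1) / 2`): `K u_s = v^{N-1} u_{s+1}`,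
`E u_s = v^{1/2-2s} (u_s - v^{-2} u_{s+1})` from `E e_x = {N - x} e_{x-1} = {x} e_{x-1}` and
`ph (x + 1) {x + 1} = ph x v^{-x-1/2-2s} (v^{x+1} - v^{-x-1})` (at `x = N - 1` use `{N} = 0`), and
`F u_s = v^{2s-1/2} (u_{s-1} - u_s)` from `F e_x = {x + 1} e_{x+1}`.  Then
`E (a ⊗ b) = E a ⊗ K b + a ⊗ E b`, `F (a ⊗ b) = F a ⊗ b + K⁻¹ a ⊗ F b` and `v^{N-1} = - v^{-1}`.
(It may be simplest to compare the entries at `p` directly.) -/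
def S_EU : Prop := ∀ N : ℕ, 0 < N → ∀ i j : ℤ,
  (W (rt N) N).E *ᵥ uv N i j = -cs N (-(1 / 2)) • (om N (1 - j) • uv N i j +
    (om N (-i) - om N (-j)) • uv N i (j + 1) - om N (-1 - i) • uv N (i + 1) (j + 1)) ∧
  (W (rt N) N).F *ᵥ uv N i j = cs N (-(1 / 2)) • (-om N i • uv N i j +
    (om N i - om N j) • uv N (i - 1) j + om N j • uv N (i - 1) (j - 1))

/-- `E` and `F` on `w_s`.

Proof.  `w_s = ∑_{a,b} g(a,b) uv (s+a+b) (s+b)`, `g(a,b) = v^{(N-1)(a+2b)} [n1,a] [n2,b] [n2,a+b]`,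
`n2 = N - 1 - n1`.  Compare the coefficients of `uv (s+a+b) (s+b)`; it suffices (for `E`) that
`ω^{1-s-b} g(a,b) + (ω^{-s-a-b} - ω^{-s-b+1}) g(a+1,b-1) - ω^{-s-a-b} g(a,b-1)
  = ω^{1-s} g(a,b) - ω^{n1-s} g(a,b-1)` for `a ≥ 0`, `b ≥ 0` (`g` extended by zero; the terms
with `a = -1` have the coefficient `ω^{-k} - ω^{-l} = 0`).  Divide by `ω^{-s} v^{(N-1)(a+2b-2)}`
(`v^{2(N-1)} = ω^{-1}`, `v^{N-1} = -v^{-1}`): the claim is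
`(ω^{-b} - 1) [n1,a][n2,b][n2,a+b] + v^{-1} (ω^{1-b} - ω^{-a-b}) [n1,a+1][n2,b-1][n2,a+b]
  + (ω^{n1} - ω^{-a-b}) [n1,a][n2,b-1][n2,a+b-1] = 0`;
`ω^{-b} - 1 = -v^{-b} {b}`, `ω^{1-b} - ω^{-a-b} = v^{1-a-2b} {a+1}`,
`ω^{n1} - ω^{-a-b} = v^{n1-a-b} {n1+a+b}`, and by (PASCAL) `{b} [n2,b] = {n2-b+1} [n2,b-1]
= {n1+b} [n2,b-1]`, `{a+1} [n1,a+1] = {n1-a} [n1,a]`, `{n1+a+b} [n2,a+b-1] = {a+b} [n2,a+b]`.
So the left side is `[n1,a][n2,b-1][n2,a+b]` times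
`-v^{-b} {n1+b} + v^{-a-2b} {n1-a} + v^{n1-a-b} {a+b} = 0`.

For `F`: `-ω^{s+a+b} g(a,b) + (ω^{s+a+b+1} - ω^{s+b}) g(a+1,b) + ω^{s+b+1} g(a,b+1)
  = -ω^{s-n1-1} g(a,b) + ω^s g(a,b+1)` for `a ≥ 0`, `b ≥ -1`.  Divide by `ω^s v^{(N-1)(a+2b)}`; with
`{n1+1+a+b} [n2,a+b] = {a+b+1} [n2,a+b+1]`, `{a+1} [n1,a+1] = {n1-a} [n1,a]` and
`{b+1} [n2,b+1] = {n1+b+1} [n2,b]` it is `[n1,a][n2,b][n2,a+b+1]` times
`-v^{a+b-n1-1} {a+b+1} - v^{a+2b} {n1-a} + v^{b-1} {n1+b+1} = 0`. -/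
def S_EW : Prop := S_EU → ∀ N : ℕ, 0 < N → ∀ n1 s : ℤ, 0 ≤ n1 → n1 < N →
  (W (rt N) N).E *ᵥ wv N n1 s = -cs N (-(1 / 2)) • (om N (1 - s) • wv N n1 s -
    om N (n1 - s) • wv N n1 (s + 1)) ∧
  (W (rt N) N).F *ᵥ wv N n1 s = cs N (-(1 / 2)) • (-om N (s - n1 - 1) • wv N n1 s +
    om N s • wv N n1 (s - 1))

/-- `Zm` in the Fourier basis.

Proof.  `∑_q (uv i' j' q)⁻¹ uv i j q = N ^ 2` if `i ≡ i'`, `j ≡ j'` modulo `N`, and `0` otherwise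
(sums of roots of unity `∑_x v^{2(i'-i)x}`), and `uv`, `wv`, `zv` are periodic modulo `N` in `i`,
`j`, `s`.  Second statement: the entries of `uv` are non-zero and by the same orthogonality the
vectors `uv i j` span. -/
def S_ZU : Prop := ∀ N : ℕ, 0 < N → ∀ n1 : ℤ, (∀ i j : ℤ, Zm N n1 *ᵥ uv N i j = zv N n1 i j) ∧
  ∀ T T' : Matrix (Fin N × Fin N) (Fin N × Fin N) ℂ,
    (∀ i j : ℤ, T *ᵥ uv N i j = T' *ᵥ uv N i j) → T = T'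

/-- `Zm` commutes with `E` and `F`.

Proof.  By `S_ZU` it suffices to compare the values at `uv i j`; write `j = i + 1 + a` modulo `N`
with `0 ≤ a ≤ N - 1` and `Zv(i,a) = zv i (i+1+a) = ∑_b h(a,b) w_{i+1+a+b}`,
`h(a,b) = v^{(N-1)(a+2b+1)} [n2,a][n1,b][n1,a+b]` (zero for `b < 0`).

`E`: to show `E Zv(i,a) = -v^{-1/2} (ω^{-i-a} Zv(i,a) + (ω^{-i} - ω^{-i-1-a}) Zv(i,a+1)
- ω^{-1-i} Zv(i+1,a))` (for `a = N - 1` the coefficient in the middle is `0`).  By `S_EW` the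
coefficient of `w_{i+1+a+b}`, `b ≥ 0`, on the left is `ω^{-i-a-b} h(a,b) - ω^{n1-i-a-b} h(a,b-1)`,
on the right `ω^{-i-a} h(a,b) + (ω^{-i} - ω^{-i-1-a}) h(a+1,b-1) - ω^{-1-i} h(a,b-1)`.  Divide by
`ω^{-i} v^{(N-1)(a+2b-1)}`; the difference of both sides is `[n2,a][n1,b-1][n1,a+b]` times
`-v^{-2-2a-b} {n1-b+1} - v^{n1-a-b-1} {a+b} + v^{-2-a} {n1+a+1} = 0`, by
`{b} [n1,b] = {n1-b+1} [n1,b-1]`, `{n1-a-b+1} [n1,a+b-1] = {a+b} [n1,a+b]`,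
`{a+1} [n2,a+1] = {n2-a} [n2,a] = {n1+a+1} [n2,a]`.

`F`: `F Zv(i,a) = v^{-1/2} (-ω^i Zv(i,a) + (ω^i - ω^{i+1+a}) Zv(i-1,a+1) + ω^{i+1+a} Zv(i-1,a))`.
Coefficient of `w_{i+1+a+b}`, `b ≥ -1`, on the left `-ω^{i+a+b-n1} h(a,b) + ω^{i+2+a+b} h(a,b+1)`, on
the right `-ω^i h(a,b) + (ω^i - ω^{i+1+a}) h(a+1,b) + ω^{i+1+a} h(a,b+1)`.  Divide by
`ω^i v^{(N-1)(a+2b+1)}`: the difference is `[n2,a][n1,b][n1,a+b+1]` times
`v^{a+b-n1} {a+b+1} + v^{2a+b+1} {n1-b} - v^a {n1+a+1} = 0`. -/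
def S_ZC : Prop := S_EU → S_EW → S_ZU → ∀ N : ℕ, 0 < N → ∀ n1 : ℤ, 0 ≤ n1 → n1 < N →
  Zm N n1 * (W (rt N) N).E = (W (rt N) N).E * Zm N n1 ∧
  Zm N n1 * (W (rt N) N).F = (W (rt N) N).F * Zm N n1

/-- `Zm` preserves the weight modulo `N`.

Proof.  `uv (i+1) (j+1) p = v^{-2(p.1+p.2)} uv i j p`, hence the same for `wv`, `zv`; shift `i` and
`j` in the double sum over residues. -/
def S_ZW : Prop := ∀ N : ℕ, 0 < N → ∀ n1 : ℤ, ∀ p q : Fin N × Fin N, Zm N n1 p q ≠ 0 →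
  (N : ℤ) ∣ ((p.1 : ℕ) + (p.2 : ℕ) - ((q.1 : ℕ) + (q.2 : ℕ)) : ℤ)

/-! ### `q`-binomial identities -/

/-- `q`-Vandermonde: `∑_a v^{(N-1)a} [n2,a] [n1,M-a] = v^{n2 M}` for `n1 + n2 = N - 1`.

Proof.  `[n,k] = v^k [n-1,k] + v^{-(n-k)} [n-1,k-1]` (`n ≤ N - 1`), from
`v^k {n-k} + v^{-(n-k)} {k} = {n}`; by induction on `m`
`[m+n,M] = ∑_a v^{(m+n)a-mM} [m,a] [n,M-a]` for `m + n ≤ N - 1`; and `[N-1,M] = 1` for
`0 ≤ M ≤ N - 1` (`D k D (N-1-k) = N`, `D_refl`). -/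
def S_QV : Prop := ∀ N : ℕ, 0 < N → ∀ n1 n2 M : ℕ, n1 + n2 + 1 = N → M < N →
  ∑ a ∈ range N, cs N (((N : ℝ) - 1) * a) * ((bq N n2 a * bq N n1 ((M : ℤ) - a) : ℝ) : ℂ) =
    cs N ((n2 : ℝ) * M)

/-- `q`-binomial theorem: `∑_b [n,b] z^b = ∏_{t<n} (1 + z v^{n-1-2t})`.

Proof.  Induction on `n` with the Pascal relation of `S_QV`. -/
def S_QB : Prop := ∀ N : ℕ, 0 < N → ∀ n : ℕ, n < N → ∀ z : ℂ,
  ∑ b ∈ range N, ((bq N n b : ℝ) : ℂ) * z ^ b =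
    ∏ t ∈ range n, (1 + z * cs N ((n : ℝ) - 1 - 2 * t))

/-- the entries of `Zm` at `(0, x)`, `(0, x)`.

Proof.  With `uv i j (0,x) = v^{-x²/2-(N-1)x-2jx}` the entry is
`N^{-2} ∑_{i,j} ∑ (coefficient of uv k l in zv i j) v^{2(j-l)x}`.  Here `l - j = b1 + b2`, so (the
sum over `i`, `j` is `N` times the sum over `a = (j-i-1) % N`) it is `N^{-1} v^{N-1}` times
`(∑_{a,b} v^{-2bx+(N-1)(2b+a)} [n2,a][n1,b][n1,a+b]) (∑_{c,b} v^{-2bx+(N-1)(2b+c)} [n1,c][n2,b]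
[n2,c+b])`.  First factor: `[n1,a+b] = [n1,n1-b-a]` and by `S_QV`
`∑_a v^{(N-1)a} [n2,a] [n1,(n1-b)-a] = v^{n2(n1-b)}` (`b ≤ n1`), so it is
`v^{n1 n2} ∑_b [n1,b] (v^{-2x-2-n2})^b = v^{n1 n2} ∏_{t<n1} (1 + v^{-2x-2-n2} v^{n1-1-2t})` by `S_QB`;
`v^{-n2} = -v^{n1+1}`, so this is `v^{n1 n2} ∏_{u<n1} (1 - ω^{u-x})`, which vanishes for `x < n1` and
is `v^{n1 n2} v^{n1(n1-1)/2-n1 x} ∏_{u<n1} {x-u} = v^{n1 n2+n1(n1-1)/2-n1 x} i^{n1} D x / D (x-n1)`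
otherwise.  The second factor is the same with `n1`, `n2` exchanged.  Product:
`n1² + n2² = (N-1)² - 2 n1 n2`, `i^{N-1} = v^{N(N-1)/2}`, `D n1 D n2 = N`. -/
def S_ZD : Prop := S_QV → S_QB → ∀ N : ℕ, ∀ h : 0 < N, ∀ n1 n2 : ℕ, n1 + n2 + 1 = N → ∀ x : Fin N,
  Zm N n1 (⟨0, h⟩, x) (⟨0, h⟩, x) = (-1) ^ (N - 1) *
    cs N ((n1 : ℝ) * n2 - ((N : ℝ) - 1) * (x : ℕ)) *
      ((bq N (x : ℕ) n1 * bq N (x : ℕ) n2 : ℝ) : ℂ)

/-! ### uniqueness -/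

/-- An operator which commutes with `E` and `F` and preserves the weight modulo `N` is determined
by its entries at `(0, x)`, `(0, x)`.

Proof.  `F (e_i ⊗ e_j) = {i+1} e_{i+1} ⊗ e_j + v^{..} {j+1} e_i ⊗ e_{j+1}` with `{i+1} ≠ 0` for
`i + 1 < N`: by induction on `i` it suffices that `T (e_0 ⊗ e_x) = 0` for all `x`; induction on
`x`.  Let `y = T (e_0 ⊗ e_x)`; `E y = T E (e_0 ⊗ e_x) = {x} T (e_0 ⊗ e_{x-1}) = 0`.  `y` has only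
components `y_i` at `e_i ⊗ e_{x-i}`, `0 ≤ i ≤ x`, and `y'_i` at `e_i ⊗ e_{x+N-i}`,
`x + 1 ≤ i ≤ N - 1`.  The coefficient of `E y` at `e_i ⊗ e_{x-1-i}` is
`v^{..} {i+1} y_{i+1} + {x-i} y_i`, so `y_0 = 0` (hypothesis) gives `y_i = 0`; at
`e_i ⊗ e_{x+N-1-i}`, `x ≤ i`: `v^{..} {i+1} y'_{i+1} + {x+N-i} y'_i`, which gives
`y'_{x+1} = 0` (for `i = x`, where there is no second term) and then `y'_i = 0`. -/
def S_UN : Prop := ∀ N : ℕ, ∀ h : 0 < N, ∀ T : Matrix (Fin N × Fin N) (Fin N × Fin N) ℂ,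
  T * (W (rt N) N).E = (W (rt N) N).E * T → T * (W (rt N) N).F = (W (rt N) N).F * T →
  (∀ p q : Fin N × Fin N, T p q ≠ 0 →
    (N : ℤ) ∣ ((p.1 : ℕ) + (p.2 : ℕ) - ((q.1 : ℕ) + (q.2 : ℕ)) : ℤ)) →
  (∀ x : Fin N, T (⟨0, h⟩, x) (⟨0, h⟩, x) = 0) → T = 0

/-! ### the operator `Xm` of a circle with `m` crossings -/

/-- `Xm` commutes with `E`, `F` and preserves the weight.

Proof.  `Xm N σ m` is `X2 σ N m 1 (rt N)` (`FW/Dia.lean`), `X2 σ N m 1 v = C2 (cx σ N v) ^ m * BB v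
(crossP N v) 2` (`Q191/SH/Two3.lean`).  For `v = u ^ 2` generic the crossing is a homomorphism
(`TaskInt`, proved as `Pool.Agent.H345J.taskInt` or similar; `cx` is a multiple of `Rh`, see `cx_sc`
in `Q191/SH/Two.lean`), and `BB` is a homomorphism (partial quantum trace of a homomorphism; see
`BB_sc` in `Q191/FT/Belt.lean` and its proof).  Both sides are continuous at `rt N`
(`X2_diff`, and the entries of `(W v N).E`, `(W v N).F` are Laurent polynomials in `v`), and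
`rt N` is a limit of generic points.  The weights are preserved at generic points, hence at
`rt N` (this is also contained in `X2_entry`). -/
def S_XC : Prop := ∀ N : ℕ, 0 < N → ∀ (σ : Bool) (m : ℕ),
  Xm N σ m * (W (rt N) N).E = (W (rt N) N).E * Xm N σ m ∧
  Xm N σ m * (W (rt N) N).F = (W (rt N) N).F * Xm N σ m ∧
  ∀ p q : Fin N × Fin N, Xm N σ m p q ≠ 0 → (p.1 : ℕ) + (p.2 : ℕ) = (q.1 : ℕ) + (q.2 : ℕ)

/-- the entries of `Xm` at `(0, x)`, `(0, x)`.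

Proof.  By `Pool.Agent.Q99.FW.X2_entry` the entry is `Kg^m K2 S2 w N 0 x 0 x`, `S2 = SS` (first
case), `SS w N 0 x 0 x = ∑_{l,i,p} tm w N 0 x 0 x l i p`.  In `T6` only `p = 0` contributes and
`TZ 0 0 (N-1) = 1`; `r = x - l`, `TZ (x-l) l (N-1-x) = [x,l]`, the phase `qe` is `-l (N-1)`, and
`TZ (l-i) (N-1-l) i = [l,i]`, `j = 2x+1-N-i`.  The sum over `i` is symmetric under `i ↔ j`, so the
factor `N + i - j` may be replaced by `N`.  With `i = x - n1`, `j = x - n2`, `n1 + n2 = N - 1`: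
`S2 = N ∑_{n1} cs (w (n1-n2)²/4) ∑_l v^{-(N-1)l} [x,l]² [l,x-n1] [l,x-n2]`; now
`[x,l] [l,x-n1] = [x,n1] [n1,l-(x-n1)]` and the same for `n2`, so the inner sum is
`[x,n1] [x,n2] ∑_l v^{-(N-1)l} [n1,x-l] [n2,x-l]` (`[n1,l-x+n1] = [n1,x-l]`), and with `m = x - l`
`∑_m v^{-(N-1)(x-m)} [n1,m] [n2,n2-m] = v^{-(N-1)x} v^{n1 n2}` by `S_QV`.  (For `i < 0` or `j < 0`,
that is `n1 > x` or `n2 > x`, the term vanishes on both sides.) -/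
def S_XD : Prop := S_QV → ∀ N : ℕ, ∀ h : 0 < N, ∀ (σ : Bool) (m : ℕ) (x : Fin N),
  Xm N σ m (⟨0, h⟩, x) (⟨0, h⟩, x) = Kg N (sg σ) ^ m * K2 N * (N * ∑ n1 ∈ range N,
    cs N ((sg σ * m : ℝ) * (2 * (n1 : ℝ) - (N - 1)) ^ 2 / 4) *
      cs N ((n1 : ℝ) * (N - 1 - n1) - ((N : ℝ) - 1) * (x : ℕ)) *
      ((bq N (x : ℕ) n1 * bq N (x : ℕ) (N - 1 - n1) : ℝ) : ℂ))

/-- the sum of the operators.

Proof.  `S_UN` for the difference. -/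
def S_XZ : Prop := S_UN → S_XC → S_XD → S_ZC → S_ZW → S_ZD → S_EU → S_EW → S_ZU → S_QV → S_QB →
  ∀ N : ℕ, 0 < N → ∀ (σ : Bool) (m : ℕ),
  Xm N σ m = (Kg N (sg σ) ^ m * K2 N * N * (-1) ^ (N - 1)) • ∑ n1 ∈ range N,
    cs N ((sg σ * m : ℝ) * (2 * (n1 : ℝ) - (N - 1)) ^ 2 / 4) • Zm N n1

/-! ### six angles -/

/-- the sum of the angles of the first triangle -/
def n1 {R : Type} [AddCommMonoid R] (x : Fin 6 → R) : R := x 0 + x 1 + x 2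

/-- the sum of the angles of the second triangle -/
def n2 {R : Type} [AddCommMonoid R] (x : Fin 6 → R) : R := x 3 + x 4 + x 5

/-- the four corners of a region: below, right, above, left -/
def cor {R : Type} [AddCommMonoid R] (x : Fin 6 → R) : Fin 4 → R :=
  ![x 0, x 1 + x 4, x 3, x 2 + x 5]

/-- the weight of six angles; `w` is the number of crossings -/
noncomputable def wt6 (N : ℕ) (w : ℝ) (x : Fin 6 → ℤ) : ℂ :=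
  cs N (w * ((n1 x - n2 x : ℤ) : ℝ) ^ 2 / 4) *
    ((bq N (n2 x) (x 0) * bq N (n1 x) (x 1) * bq N (n1 x) (x 2) *
      (bq N (n1 x) (x 3) * bq N (n2 x) (x 4) * bq N (n2 x) (x 5)) : ℝ) : ℂ)

/-- natural numbers below `N` as integers -/
def zz {N : ℕ} (x : Fin 6 → Fin N) : Fin 6 → ℤ := fun t => ((x t : ℕ) : ℤ)

/-- `(-v^{-1}) ^ s` -/
noncomputable def nu (N : ℕ) (s : ℤ) : ℂ := (-(rt N)⁻¹) ^ s

/-- **the operator of a circle with `m` crossings in the Fourier basis**.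

Proof.  `S_XZ` and `S_ZU`: `Xm uv i j = K ∑_{n1} cs (w z²/4) (-1)^{N-1} zv n1 i j`, `z = 2 n1 - (N-1)
= n1 - n2`, and, with `a = (j-i-1) % N`,
`zv n1 i j = ∑_{b1,c,b2} v^{(N-1)(a+2 b1+1+c+2 b2)} [n2,a][n1,b1][n1,a+b1] [n1,c][n2,b2][n2,c+b2]
  uv (j+b1+c+b2) (j+b1+b2)`.
Put `x = (a, b1, n1-a-b1, c, b2, n2-c-b2)`: `[n1,a+b1] = [n1,x 2]`, `[n2,c+b2] = [n2,x 5]`, the sum
of `x` is `N - 1`, and with `β = b1 + b2 = x 1 + x 4`, `γ = x 2 + x 5 = N - 1 - a - c - β`: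
`j + β + c ≡ i + 1 + a + β + c = i - γ + N` modulo `N`.  Phases: with `X = a + 2 β + 1 + c`,
`v^{(N-1) X} (-1)^{N-1} nu (i+j)` against `nu (i-γ+j+β)`:  `nu (γ-β) = (-1)^{γ+β} v^{β-γ}`,
`v^{(N-1)X} = (-1)^X v^{-X}`, `X = N - 1 - γ + β + 1 = N + β - γ`, `v^{-N} = -1`. -/
def S_F1 : Prop := S_XZ → S_UN → S_XC → S_XD → S_ZC → S_ZW → S_ZD → S_EU → S_EW → S_ZU → S_QV →
  S_QB → ∀ N : ℕ, 0 < N → ∀ (σ : Bool) (m : ℕ) (i j : ℤ) (p : Fin N × Fin N),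
  ∑ q : Fin N × Fin N, Xm N σ m p q * (nu N (i + j) * (ph N 0 i (q.1 : ℕ) * ph N 1 j (q.2 : ℕ))) =
    Kg N (sg σ) ^ m * K2 N * N * ∑ x : Fin 6 → Fin N,
      if ((x 0 : ℕ) : ℤ) = (j - i - 1) % N ∧ n1 (zz x) + n2 (zz x) = N - 1 then
        wt6 N (sg σ * m) (zz x) * (nu N (i - cor (zz x) 3 + (j + cor (zz x) 1)) *
          (ph N 0 (i - cor (zz x) 3) (p.1 : ℕ) * ph N 1 (j + cor (zz x) 1) (p.2 : ℕ))) else 0

end Pool.Agent.Q99.FAL
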