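import Pool.Agent.Q99.FAL.Stm

/-!
# Fully augmented links, part B: diagrams

A diagram with `n` strands has `n + 1` gaps (the regions of the plane on a horizontal line, from
left to right).  `G = [g_0, …, g_n]` is the list of the sums of the angles of these regions below
the line; the strands have the labels `str s G = [s - g_0, s - g_0 - g_1, …]`.
-/

set_option autoImplicit false

namespace Pool.Agent.Q99.FAL

open Matrix Finset
open Pool.Agent.H550R3.Jones (WM IsMod IsInt br brf W irr)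
open Pool.Agent.W715.VC (rt)
open Pool.Agent.W709.QAT (Piece run)
open Pool.Agent.Q191.TW (cs)
open Pool.Agent.Q191.LB (sg)
open Pool.Agent.Q191.SH (aw)
open Pool.Agent.Q99.FW (TZ Kg K2 Xm)

/-! ### Fourier vectors on lists -/

/-- the tensor product of the Fourier vectors `s` of strands in the positions `k`, `k + 1`, … -/
noncomputable def uu (N : ℕ) : ℤ → List ℤ → List (Fin N) → ℂ
  | _, [], [] => 1
  | k, s :: ss, x :: xs => ph N k s (x : ℕ) * uu N (k + 1) ss xs
  | _, _, _ => 0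

/-- the same, times `(-v^{-1}) ^ (sum of the labels)` -/
noncomputable def UU (N : ℕ) (s : List ℤ) (l : List (Fin N)) : ℂ := nu N s.sum * uu N 0 s l

/-- the sign of a shift by `N k` -/
noncomputable def ep (N : ℕ) (k : ℤ) : ℂ := ((-1 : ℂ) ^ (N + 1)) ^ k

/-- a shift of one label by `N k`.

Proof.  `ph` is periodic, `nu N (N k) = ((-1)^N v^{-N})^k`, `v^N = -1`. -/
def S_PER : Prop := ∀ N : ℕ, 0 < N → ∀ (L R : List ℤ) (a k : ℤ) (l : List (Fin N)),
  UU N (L ++ (a + N * k) :: R) l = ep N k * UU N (L ++ a :: R) l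

/-- a cup.

Proof.  At the root of unity `kap N v a = (-1)^a v^{a(N-2-a)} = v^{(2N-2)a-a²}` (`D a D (N-1-a) = N`)
and `∑_t ω^{-t} ph p t a ph (p+1) t b = N v^{-(N-1)²(p+3/2)} kap a` if `a + b = N - 1` and `0`
otherwise (`∑_t v^{-2t(1+a+b)}`, `1 + a + b` is divisible by `N` only for `a + b = N - 1`).
`nu (2 t) = ω^{-t}`.  A strand on the right moves from the position `k` to `k + 2`:
`ph (k+2) (s+1) x = ph k s x` since `v^{-2(N-1)x-2x} = 1`; this multiplies `nu` by
`(-v^{-1})^{n-p}`. -/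
def S_CUP : Prop := ∀ N : ℕ, 0 < N → ∀ n p : ℕ, p ≤ n → ∃ κ : ℂ, ‖κ‖ = 1 ∧ ∀ s : List ℤ,
  s.length = n → ∀ l : List (Fin N), l.length = n + 2 →
  run N (rt N) [Piece.cup p] (UU N s) l =
    κ / N * ∑ t ∈ range N, UU N (s.take p ++ (t : ℤ) :: (t : ℤ) :: (s.drop p).map (· + 1)) l

/-- a cap.

Proof.  `∑_{a+b=N-1} (kap b)⁻¹ ph p s a ph (p+1) t b = v^{-(N-1)²(p+1/2)} ω^s ∑_b v^{2(s-t+1)b}`
(`s`, `t` the labels of the strands `p`, `p + 1`), which is `N` if `t ≡ s + 1` and `0` otherwise.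
`nu (s + t) ω^s = (-v^{-1}) ep k` for `t = s + 1 + N k`.  The strands on the right as in `S_CUP`. -/
def S_CAP : Prop := ∀ N : ℕ, 0 < N → ∀ n p : ℕ, ∃ κ : ℂ, ‖κ‖ = 1 ∧ ∀ (L R : List ℤ) (a b : ℤ),
  L.length = p → R.length = n → ∀ l : List (Fin N), l.length = p + n →
  run N (rt N) [Piece.cap p] (UU N (L ++ a :: b :: R)) l =
    if (N : ℤ) ∣ b - a - 1 then κ * N * ep N ((b - a - 1) / N) * UU N (L ++ R.map (· - 1)) l else 0

/-- the last formula of `Stm.lean` (`S_F1`) without its hypotheses -/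
def F1 : Prop := ∀ N : ℕ, 0 < N → ∀ (σ : Bool) (m : ℕ) (i j : ℤ) (p : Fin N × Fin N),
  ∑ q : Fin N × Fin N, Xm N σ m p q * (nu N (i + j) * (ph N 0 i (q.1 : ℕ) * ph N 1 j (q.2 : ℕ))) =
    Kg N (sg σ) ^ m * K2 N * N * ∑ x : Fin 6 → Fin N,
      if ((x 0 : ℕ) : ℤ) = (j - i - 1) % N ∧ n1 (zz x) + n2 (zz x) = N - 1 then
        wt6 N (sg σ * m) (zz x) * (nu N (i - cor (zz x) 3 + (j + cor (zz x) 1)) *
          (ph N 0 (i - cor (zz x) 3) (p.1 : ℕ) * ph N 1 (j + cor (zz x) 1) (p.2 : ℕ))) else 0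

/-- an encircled twist region.

Proof.  `Rep_aw` (`Q191/SH/Aug.lean`, see `run_aw0` in `FW/Dia.lean`; `Xm` is its matrix), then `F1`.
A common shift of the positions of both strands by `p` multiplies `ph ph` by
`v^{-(N-1)p(q.1+q.2)}`, which commutes with `Xm` since `Xm` preserves `q.1 + q.2` (the last
statement of `S_XC`, or `X2_entry`). -/
def S_REG : Prop := F1 → ∀ N : ℕ, 0 < N → ∀ (σ : Bool) (m p : ℕ) (L R : List ℤ) (i j : ℤ),
  L.length = p → ∀ l : List (Fin N), l.length = (L ++ i :: j :: R).length →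
  run N (rt N) (aw p σ m 1) (UU N (L ++ i :: j :: R)) l =
    Kg N (sg σ) ^ m * K2 N * N * ∑ x : Fin 6 → Fin N,
      if ((x 0 : ℕ) : ℤ) = (j - i - 1) % N ∧ n1 (zz x) + n2 (zz x) = N - 1 then
        wt6 N (sg σ * m) (zz x) *
          UU N (L ++ (i - cor (zz x) 3) :: (j + cor (zz x) 1) :: R) l else 0

/-! ### pieces -/

/-- The six types of the vertices of a diagram.  Each contains one encircled twist region, which has
four corners: below, right, above, left. -/
inductive Ty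
  | V | H | YL | YR | LL | LR
  deriving DecidableEq

/-- a piece: type, position, sign and number of the crossings -/
structure Pc where
  ty : Ty
  p : ℕ
  σ : Bool
  m : ℕ

/-- the elementary parts of a piece -/
def els : Pc → List Piece
  | ⟨.V, p, σ, m⟩ => aw p σ m 1
  | ⟨.H, p, σ, m⟩ => Piece.cup (p + 2) :: (aw (p + 1) σ m 1 ++ [Piece.cap p])
  | ⟨.YL, p, σ, m⟩ => Piece.cup (p + 1) :: aw p σ m 1
  | ⟨.YR, p, σ, m⟩ => Piece.cup p :: aw (p + 1) σ m 1
  | ⟨.LL, p, σ, m⟩ => aw p σ m 1 ++ [Piece.cap (p + 1)]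
  | ⟨.LR, p, σ, m⟩ => aw (p + 1) σ m 1 ++ [Piece.cap p]

/-- the number of strands above a piece -/
def up : Ty → ℕ → ℕ
  | .V, n => n
  | .H, n => n
  | .YL, n => n + 2
  | .YR, n => n + 2
  | .LL, n => n - 2
  | .LR, n => n - 2

/-- the number of strands which enter a piece from below -/
def wd : Ty → ℕ
  | .V => 2
  | .H => 2
  | .YL => 1
  | .YR => 1
  | .LL => 3
  | .LR => 3

/-- `D` is a diagram with `n` strands below and one strand above -/
def Val : List Pc → ℕ → Prop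
  | [], n => n = 1
  | P :: D, n => P.p + wd P.ty ≤ n ∧ Val D (up P.ty n)

/-- the gaps above a piece: `q` are the corners below, right, above, left -/
def stp {R : Type} [Add R] (T : Ty) (p : ℕ) (q : Fin 4 → R) (G : List R) : List R :=
  match T, G.drop p with
  | .V, x :: _ :: y :: r => G.take p ++ (x + q 3) :: q 2 :: (y + q 1) :: r
  | .H, x :: _ :: y :: r => G.take p ++ (x + q 2) :: q 1 :: (y + q 0) :: r
  | .YL, x :: y :: r => G.take p ++ (x + q 3) :: q 2 :: q 1 :: (y + q 0) :: r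
  | .YR, x :: y :: r => G.take p ++ (x + q 0) :: q 3 :: q 2 :: (y + q 1) :: r
  | .LL, x :: _ :: _ :: y :: r => G.take p ++ (x + q 3) :: (y + q 2) :: r
  | .LR, x :: _ :: _ :: y :: r => G.take p ++ (x + q 2) :: (y + q 1) :: r
  | _, _ => []

/-- the angle sums of the regions of the plane which end at a piece -/
def cls {R : Type} [Add R] (T : Ty) (p : ℕ) (q : Fin 4 → R) (G : List R) : List R :=
  match T, G.drop p with
  | .V, _ :: g :: _ => [g + q 0]
  | .H, _ :: g :: _ => [g + q 3]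
  | .LL, _ :: g :: h :: _ => [g + q 0, h + q 1]
  | .LR, _ :: g :: h :: _ => [g + q 3, h + q 0]
  | _, _ => []

/-- the labels of the strands -/
def str : ℤ → List ℤ → List ℤ
  | _, [] => []
  | _, [_] => []
  | s, g :: g' :: G => (s - g) :: str (s - g) (g' :: G)

/-- the power of `N` of a piece -/
def ex : Ty → ℕ
  | .V => 1
  | .H => 1
  | .YL => 0
  | .YR => 0
  | .LL => 2
  | .LR => 2

/-- **the operator of a piece of type `T`.**  The factor `ε` is `1` if the closed regions have the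
angle sum `N - 1` exactly.

Proof (`S_CUP`, `S_CAP`, `S_REG`, `S_PER`).  Write `s_k` for the strand `k` of `str s G`, so
`s_{k+1} = s_k - g_{k+1}` (`g_k`: entry `k` of `G`; gap `k` is on the left of strand `k`), and
`A = x 0`, `β = x 1 + x 4`, `C = x 3`, `γ = x 2 + x 5`, `A + β + C + γ = N - 1`.  In each case the
labels after the piece are those of `str s (stp …)` up to shifts of some labels by multiples of `N`
(`S_PER`), which are constant when all closed regions have the sum `N - 1`.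

`V`: region on `(s_p, s_{p+1})`: `A ≡ -g_{p+1} - 1`, that is `N ∣ g_{p+1} + A + 1`; put
`g_{p+1} + A + 1 = N (1 + e)`.  New labels `s_p - γ`, `s_{p+1} + β`; the difference is
`g_{p+1} - γ - β = C + N e`.  So all labels from the strand `p + 1` on are those of `str` shifted by
`- N e`.

`YL`: after the cup `…, s_p, t, t, s_{p+1} + 1, …`, `t` runs over all residues, the region is on
`(s_p, t)`, `A ≡ t - s_p - 1`: for each `x` there is exactly one `t`, replace it by
`t = s_p + 1 + A - N` (both labels `t` are shifted: no sign).  New labels `s_p - γ`, `t + β`, `t`,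
`s_{p+1} + 1`: differences `C`, `β`, `g_{p+1} + A - N`.  So the labels from the strand `p + 3` on are
those of `str` shifted by `N`.

`YR`: after the cup `…, t, t, s_p + 1, …` (the old strand `p` is now strand `p + 2`), the region is
on the second `t` and `s_p + 1`, `A ≡ s_p - t`; `t = s_p - A`.  New labels `s_p - A`, `t - γ`,
`s_p + 1 + β`, `s_{p+1} + 1`, …: the first gap is `g_p + A`, then `γ`, `C - N`, `g_{p+1} + β`.  So the
labels from the strand `p + 2` on are those of `str` shifted by `N`.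

`LL`: region on `(s_p, s_{p+1})`, `A + g_{p+1} + 1 = N (1 + e)`; then the cap joins `s_{p+1} + β` and
`s_{p+2}`: `N ∣ s_{p+2} - s_{p+1} - β - 1 = -(g_{p+2} + β + 1)`, `= - N (1 + f)`; factor
`ep (-(1 + f))`.  The labels after the cap: `s_p - γ`, `s_{p+3} - 1`; difference
`g_{p+1} + g_{p+2} + g_{p+3} - γ + 1 = g_{p+3} + C + N (1 + e + f)`.

`LR`: region on `(s_{p+1}, s_{p+2})`, `A + g_{p+2} + 1 = N (1 + f)`; the cap joins `s_p` and
`s_{p+1} - γ`: `N ∣ -(g_{p+1} + γ + 1) = -N (1 + e)`.  After the cap the strand `p` is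
`s_{p+2} + β - 1`; `s_{p-1} - (s_{p+2} + β - 1) = g_p + C + N (1 + e + f)` (for `p = 0`: with `s` in
the place of `s_{p-1}`), and the next gap is `g_{p+3} + β`.

`H`: after the cup `…, s_p, s_{p+1}, t, t, s_{p+2} + 1, …`, region on `(s_{p+1}, t)`,
`A ≡ t - s_{p+1} - 1`, `t = s_{p+1} + 1 + A - N`, the cap joins `s_p` and `s_{p+1} - γ`:
`g_{p+1} + γ + 1 = N (1 + e)`.  Labels after the cap: `t + β - 1`, `t - 1`, `s_{p+2}`; gaps
`g_p + C + N (1 + e)`, `β`, `g_{p+2} + A - N`. -/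
def TR (T : Ty) : Prop := S_PER → S_CUP → S_CAP → S_REG → F1 →
  ∀ N : ℕ, 0 < N → ∀ (p n : ℕ) (σ : Bool) (m : ℕ), p + wd T ≤ n →
  ∃ θ : ℂ, ‖θ‖ = 1 ∧ ∀ (s : ℤ) (G : List ℤ), G.length = n + 1 → (∀ g ∈ G, 0 ≤ g) →
  ∃ ε : (Fin 6 → Fin N) → ℂ, (∀ x, (∀ c ∈ cls T p (cor (zz x)) G, c = N - 1) → ε x = 1) ∧
  ∀ l : List (Fin N), l.length = up T n →
    run N (rt N) (els ⟨T, p, σ, m⟩) (UU N (str s G)) l =
      θ * N ^ ex T * ∑ x : Fin 6 → Fin N, if n1 (zz x) + n2 (zz x) = N - 1 ∧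
        (∀ c ∈ cls T p (cor (zz x)) G, (N : ℤ) ∣ c + 1) then
          wt6 N (sg σ * m) (zz x) * ε x * UU N (str s (stp T p (cor (zz x)) G)) l else 0

/-! ### the state sum -/

/-- the state sum, recursively -/
noncomputable def SD (N : ℕ) : List Pc → List ℤ → ℂ
  | [], G => if G = [0, 0] then 1 else 0
  | P :: D, G => ∑ x : Fin 6 → Fin N, if n1 (zz x) + n2 (zz x) = N - 1 ∧
      (∀ c ∈ cls P.ty P.p (cor (zz x)) G, c = N - 1) then
        wt6 N (sg P.σ * P.m) (zz x) * SD N D (stp P.ty P.p (cor (zz x)) G) else 0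

/-- `TR` for all types, without hypotheses -/
def TRall : Prop := ∀ (T : Ty) (N : ℕ), 0 < N → ∀ (p n : ℕ) (σ : Bool) (m : ℕ), p + wd T ≤ n →
  ∃ θ : ℂ, ‖θ‖ = 1 ∧ ∀ (s : ℤ) (G : List ℤ), G.length = n + 1 → (∀ g ∈ G, 0 ≤ g) →
  ∃ ε : (Fin 6 → Fin N) → ℂ, (∀ x, (∀ c ∈ cls T p (cor (zz x)) G, c = N - 1) → ε x = 1) ∧
  ∀ l : List (Fin N), l.length = up T n →
    run N (rt N) (els ⟨T, p, σ, m⟩) (UU N (str s G)) l =
      θ * N ^ ex T * ∑ x : Fin 6 → Fin N, if n1 (zz x) + n2 (zz x) = N - 1 ∧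
        (∀ c ∈ cls T p (cor (zz x)) G, (N : ℤ) ∣ c + 1) then
          wt6 N (sg σ * m) (zz x) * ε x * UU N (str s (stp T p (cor (zz x)) G)) l else 0

/-- too small angle sums give zero.

Proof.  Induction on `D` (`run` of a concatenation; `run` is linear and depends on the values on
lists of the right length only: `Gd` in `Q191/TB`).  `D = []`: `n = 1` and `2 ΣG < 0` is impossible.
`P :: D`: `TRall`; the gaps `G' = stp …` are `≥ 0` and `ΣG' = ΣG + (N - 1) - Σ cls`; each `c` in `cls`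
has `c ≥ 0` and `N ∣ c + 1`, so `c ≥ N - 1`; hence `2 ΣG' - (up n - 1)(N - 1) ≤ 2 ΣG - (n-1)(N-1)`
for each type (number of closed regions: `V`, `H`: 1, `YL`, `YR`: 0, `LL`, `LR`: 2). -/
def S_Z : Prop := TRall → ∀ N : ℕ, ∀ h : 0 < N, ∀ (D : List Pc) (n : ℕ), Val D n →
  ∀ (s : ℤ) (G : List ℤ), G.length = n + 1 → (∀ g ∈ G, 0 ≤ g) →
  2 * G.sum < ((n : ℤ) - 1) * (N - 1) →
  run N (rt N) (D.flatMap els) (UU N (str s G)) [⟨0, h⟩] = 0

/-- the state sum.

Proof.  Induction on `D`.  `D = []`: `G = [0, 0]`, `UU [s] [0] = nu s`.  `P :: D`: `TRall`; as in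
`S_Z`, a term with a closed region of sum `> N - 1` has `2 ΣG' < (up n - 1)(N - 1)` and vanishes by
`S_Z`.  For the others `ε = 1` and `2 ΣG' = (up n - 1)(N - 1)`.  If the first and the last entry of
`G'` are zero: induction.  If the first entry `g` or the last entry is `> 0`, then
`str s G' = str (s - g) G''` where `G''` is `G'` with these entries replaced by `0`: `S_Z` gives `0`,
and `SD N D G' = 0` (the first and the last entry never decrease). -/
def S_G : Prop := TRall → S_Z → ∀ N : ℕ, ∀ h : 0 < N, ∀ (D : List Pc) (n : ℕ), Val D n →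
  ∃ θ : ℂ, ‖θ‖ = 1 ∧ ∀ (s : ℤ) (G : List ℤ), G.length = n + 1 → (∀ g ∈ G, 0 ≤ g) →
  G.head? = some 0 → G.getLast? = some 0 → 2 * G.sum = ((n : ℤ) - 1) * (N - 1) →
  run N (rt N) (D.flatMap els) (UU N (str s G)) [⟨0, h⟩] =
    θ * N ^ (D.map fun P => ex P.ty).sum * nu N s * SD N D G

/-- **the Kashaev invariant as a state sum.**

Proof.  On lists of length `1` the function `[l = [0]]` is `N⁻¹ ∑_{s<N} uu N 0 [s]
= N⁻¹ ∑_s nu (-s) UU [s]`, `[s] = str s [0, 0]`; `S_G` with `n = 1`.  The sum of the exponents is the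
number of the pieces since the numbers of pieces `Y` and `L` are equal. -/
def S_J : Prop := S_G → TRall → S_Z → ∀ N : ℕ, ∀ h : 0 < N, ∀ D : List Pc, Val D 1 →
  ∃ θ : ℂ, ‖θ‖ = 1 ∧ run N (rt N) (D.flatMap els) (fun l => if l = [⟨0, h⟩] then 1 else 0)
    [⟨0, h⟩] = θ * N ^ D.length * SD N D [0, 0]

/-! ### solutions -/

/-- `a` is a weighting with all angle sums `u`, starting with the gaps `G` -/
def Sol {R : Type} [CommRing R] : (D : List Pc) → (Fin D.length → Fin 6 → R) → List R → R → Prop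
  | [], _, G, _ => G = [0, 0]
  | P :: D, a, G, u => n1 (a 0) + n2 (a 0) = u ∧ (∀ c ∈ cls P.ty P.p (cor (a 0)) G, c = u) ∧
      Sol D (fun k => a k.succ) (stp P.ty P.p (cor (a 0)) G) u

open Classical in
/-- the state sum, unrolled.

Proof.  Induction on `D`, `Fin.consEquiv` (or `Fin.insertNthEquiv`, `Fin.prod_univ_succ`). -/
def S_UNR : Prop := ∀ (N : ℕ) (D : List Pc) (G : List ℤ), SD N D G =
  ∑ a : Fin D.length → Fin 6 → Fin N,
    if Sol D (fun k => zz (a k)) G ((N : ℤ) - 1) then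
      ∏ k : Fin D.length, wt6 N (sg (D.get k).σ * (D.get k).m) (zz (a k)) else 0

end Pool.Agent.Q99.FAL
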