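import Pool.Agent.Q99.FAL.Stm3

/-!
# Fully augmented links, part D: the net of a diagram
-/

set_option autoImplicit false

namespace Pool.Agent.Q99.FAL

open Finset Filter Topology
open Pool.Agent.W715.VC (rt)
open Pool.Agent.W709.QAT (Piece run)
open Pool.Agent.Q191.LB (sg)

/-- the corner (below, right, above, left) of the vertex in the gap on its left -/
def lc : Ty → Fin 4
  | .V => 3
  | .H => 2
  | .YL => 3
  | .YR => 0
  | .LL => 3
  | .LR => 2

/-- the corner of the vertex in the gap on its right -/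
def rc : Ty → Fin 4
  | .V => 1
  | .H => 0
  | .YL => 0
  | .YR => 1
  | .LL => 2
  | .LR => 1

/-- the corner of an angle -/
def c6 : Fin 6 → Fin 4 := ![0, 1, 3, 2, 1, 3]

/-- the corners in the two outer regions of the plane -/
def Out : (D : List Pc) → ℕ → Fin D.length → Fin 4 → Prop
  | [], _, _, _ => False
  | P :: D, n, k, j => Fin.cases (motive := fun _ => Prop)
      ((P.p = 0 ∧ j = lc P.ty) ∨ (P.p + wd P.ty = n ∧ j = rc P.ty))
      (fun k' => Out D (up P.ty n) k' j) k

/-- there is more than one strand between the first and the last piece -/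
def Pri : List Pc → ℕ → Prop
  | [], _ => True
  | P :: D, n => (D = [] ∨ up P.ty n ≠ 1) ∧ Pri D (up P.ty n)

/-- the number of the regions which end at a piece -/
def ncl : Ty → ℕ
  | .V => 1
  | .H => 1
  | .YL => 0
  | .YR => 0
  | .LL => 2
  | .LR => 2

/-- the angle sums of all regions which end at a piece -/
def clo {R : Type} [AddCommMonoid R] :
    (D : List Pc) → (Fin D.length → Fin 6 → R) → List R → List R
  | [], _, _ => []
  | P :: D, a, G => cls P.ty P.p (cor (a 0)) G ++
      clo D (fun k => a k.succ) (stp P.ty P.p (cor (a 0)) G)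

/-- the last gaps -/
def gfi {R : Type} [AddCommMonoid R] :
    (D : List Pc) → (Fin D.length → Fin 6 → R) → List R → List R
  | [], _, G => G
  | P :: D, a, G => gfi D (fun k => a k.succ) (stp P.ty P.p (cor (a 0)) G)

/-- `Sol` in terms of `clo` and `gfi`; additivity, multiples and functoriality.

Proof.  Inductions on `D`. -/
def S_SO : Prop :=
  (∀ (R : Type) [CommRing R] (D : List Pc) (a : Fin D.length → Fin 6 → R) (G : List R) (u : R),
    Sol D a G u ↔ (∀ k, n1 (a k) + n2 (a k) = u) ∧ (∀ c ∈ clo D a G, c = u) ∧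
      gfi D a G = [0, 0]) ∧
  (∀ (R : Type) [CommRing R] (D : List Pc) (a a' : Fin D.length → Fin 6 → R) (G G' : List R)
    (u u' : R), G.length = G'.length → Sol D a G u → Sol D a' G' u' →
      Sol D (a + a') (List.zipWith (· + ·) G G') (u + u')) ∧
  (∀ (R : Type) [CommRing R] (D : List Pc) (a : Fin D.length → Fin 6 → R) (G : List R)
    (u r : R), Sol D a G u → Sol D (r • a) (G.map (r * ·)) (r * u)) ∧
  (∀ (R R' : Type) [CommRing R] [CommRing R'] (f : R →+ R') (D : List Pc)
    (a : Fin D.length → Fin 6 → R) (G : List R) (u : R), Sol D a G u →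
      Sol D (fun k i => f (a k i)) (G.map f) (f u)) ∧
  (∀ (D : List Pc) (a : Fin D.length → Fin 6 → ℤ) (G : List ℤ) (u : ℤ),
    Sol D (fun k i => (a k i : ℝ)) (G.map fun g => (g : ℝ)) (u : ℝ) → Sol D a G u)

/-- non-negative solutions vanish at the outer corners.

Proof.  Induction on `D` for all `G` with non-negative entries: the first and the last gap never
decrease, and grow by the angles of the outer corners; in the end they are `0`.  Also: if the first
(last) entry of `G` is positive there is no solution. -/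
def S_OZ : Prop := (∀ (D : List Pc) (n : ℕ), Val D n → ∀ (a : Fin D.length → Fin 6 → ℝ)
    (G : List ℝ) (u : ℝ), G.length = n + 1 → (∀ g ∈ G, 0 ≤ g) → (∀ k i, 0 ≤ a k i) →
    Sol D a G u → ∀ k i, Out D n k (c6 i) → a k i = 0) ∧
  (∀ (D : List Pc) (n : ℕ), Val D n → ∀ (a : Fin D.length → Fin 6 → ℤ)
    (G : List ℤ) (u : ℤ), G.length = n + 1 → (∀ g ∈ G, 0 ≤ g) → (∀ k i, 0 ≤ a k i) →
    Sol D a G u → ∀ k i, Out D n k (c6 i) → a k i = 0)

/-- **all sums can be prescribed**, up to one relation.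

Proof.  Induction on `D`.  `n` is odd.  Let `P :: D`, `x` the six angles of `P`, and let `g`, `h` be
the entries of `G` in the gaps which end at `P`, `w₁`, `w₂` the first entries of `w`, `u₀ = u 0`.
`V`: `x 0 = w₁ - g`, `x 3 = u₀ - x 0`.  `H`: `x 2 = w₁ - g`, `x 1 = u₀ - x 2`.  `YL`, `YR`: `x 3 = u₀`.
`LL`: `x 0 = w₁ - g`, `x 1 = w₂ - h`, and `r = u₀ - x 0 - x 1` is `x 2` if `P.p ≠ 0`, and `x 3` if
`P.p = 0` and `3 < n`; if `P.p = 0` and `n = 3` then `D = []` (`Pri`) and `r = 0` by the relation.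
`LR`: `x 2 = w₁ - g`, `x 0 = w₂ - h`, `r` is `x 3` if `P.p ≠ 0`, `x 1` otherwise.  All other angles
are `0`.  These angles are not outer (`n ≥ 3` for `V`, `H`; `n` odd).  Then induction for `D` with
the gaps `stp …`, whose first and last entries are `0`. -/
def S_SUR : Prop := ∀ (R : Type) [CommRing R] (D : List Pc) (n : ℕ), Val D n → Pri D n → D ≠ [] →
  ∀ G : List R, G.length = n + 1 → G.head? = some 0 → G.getLast? = some 0 →
  ∀ (u : Fin D.length → R) (w : List R), w.length = (D.map fun P => ncl P.ty).sum →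
  w.sum = G.sum + ∑ k, u k → ∃ a : Fin D.length → Fin 6 → R,
    (∀ k i, Out D n k (c6 i) → a k i = 0) ∧ (∀ k, n1 (a k) + n2 (a k) = u k) ∧
    clo D a G = w ∧ gfi D a G = [0, 0]

/-- the closed regions of a diagram: as many as pieces (for `n = 1`), and the conservation law. -/
def S_NC : Prop := (∀ (D : List Pc) (n : ℕ), Val D n →
    2 * (D.map fun P => ncl P.ty).sum + 1 = 2 * D.length + n) ∧
  ∀ (R : Type) [CommRing R] (D : List Pc) (n : ℕ), Val D n → ∀ (a : Fin D.length → Fin 6 → R)
    (G : List R), G.length = n + 1 → (clo D a G).length = (D.map fun P => ncl P.ty).sum ∧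
    (gfi D a G).length = 2 ∧
    (clo D a G).sum + (gfi D a G).sum = G.sum + ∑ k, (n1 (a k) + n2 (a k))

/-- the lattice of a diagram -/
def IsLat (D : List Pc) (L : Submodule ℤ (Fin D.length → Fin 6 → ℤ)) : Prop :=
  ∀ δ, δ ∈ L ↔ Sol D δ [0, 0] 0 ∧ ∀ k i, Out D 1 k (c6 i) → δ k i = 0

/-- real solutions are in the span of the integer ones.

Proof.  Let `x` be a real solution and let `B` be a basis of `ℝ` over `ℚ`
(`Module.Basis.ofVectorSpace ℚ ℝ`).  `x k i = ∑_j B.coord j (x k i) B_j`, a finite sum; for each `j` the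
vector `B.coord j ∘ x` is a rational solution (`S_SO`, functoriality), a positive multiple of which
is an integer solution (`S_SO`). -/
def S_SP : Prop := S_SO → ∀ (D : List Pc) (L : Submodule ℤ (Fin D.length → Fin 6 → ℤ)), IsLat D L →
  ∀ x : Fin D.length → Fin 6 → ℝ, Sol D x [0, 0] 0 → (∀ k i, Out D 1 k (c6 i) → x k i = 0) →
  x ∈ Submodule.span ℝ (toR '' (L : Set _))

/-- the rank of the lattice.

Proof.  `X = {δ // δ = 0 at the outer angles}` is free of rank the number of inner angles;
`T : X → ℤ^c × ℤ^c`, `δ ↦ (k ↦ n1 (δ k) + n2 (δ k), clo D δ [0, 0])` is linear, its kernel is `L`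
(`gfi = [0, 0]` because the two outer gaps stay `0`), and its image is `{(u, w) | ∑ u = ∑ w}`
(`S_SUR`, `S_NC`), of rank `2 c - 1`. -/
def S_DIM : Prop := S_SO → S_SUR → S_NC → ∀ D : List Pc, Val D 1 → Pri D 1 → D ≠ [] →
  ∀ L : Submodule ℤ (Fin D.length → Fin 6 → ℤ), IsLat D L →
  Module.finrank ℤ L + 2 * D.length =
    Nat.card {q : Fin D.length × Fin 6 // ¬ Out D 1 q.1 (c6 q.2)} + 1

/-- a positive angle structure of a diagram -/
structure Pos (D : List Pc) (p : Fin D.length → Fin 6 → ℝ) : Prop where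
  sol : Sol D p [0, 0] 1
  half : ∀ k, n1 (p k) = 1 / 2
  nonneg : ∀ k i, 0 ≤ p k i
  pos : ∀ k i, ¬ Out D 1 k (c6 i) → 0 < p k i

/-- the number of the angles `≠ 0, 1/2`.

Proof.  `p k i = 0` iff the corner is outer (`S_OZ`).  `p k i = 1/2` iff the other two angles of the
triangle (`{0, 1, 2}` or `{3, 4, 5}`) are outer.  A vertex with at most one outer corner has at most
one outer angle in each triangle.  Both corners `lc`, `rc` are outer iff `P.p = 0` and `wd P.ty = n`;
`n` is odd, so this is so only for `n = 1` (`YL`, `YR`) and for `n = 3` (`LL`, `LR`), that is (by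
`Pri`) for the first and the last piece.  `YL`: the outer angles are `0, 2, 5`, so only the angle
`1` is `1/2`; `YR`: `0, 1, 4`, the angle `2`; `LL`: `2, 3, 5`, the angle `4`; `LR`: `1, 3, 4`, the
angle `5`.  (The first piece is not the last one.) -/
def S_CN : Prop := S_OZ → ∀ D : List Pc, Val D 1 → Pri D 1 → D ≠ [] →
  ∀ p : Fin D.length → Fin 6 → ℝ, Pos D p →
  nV p + 2 = Nat.card {q : Fin D.length × Fin 6 // ¬ Out D 1 q.1 (c6 q.2)}

/-- the angle structures of a diagram -/
def AS (D : List Pc) : Set (Fin D.length → Fin 6 → ℝ) :=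
  {a | Sol D a [0, 0] 1 ∧ (∀ k, n1 (a k) = 1 / 2) ∧ ∀ k i, 0 ≤ a k i}

/-- the half twists -/
noncomputable def ws (D : List Pc) : Fin D.length → ℝ := fun k => sg (D.get k).σ * (D.get k).m

/-- **the net of a diagram.**

Proof.  `L` is the submodule of `IsLat` (`S_SO`), `a0` an integer solution with `u = 1`, zero at the
outer angles (`S_SUR` with `u = 1`, `w = (1, …, 1)`, `S_NC`).  `X.Ang = AS D`: `S_SP` and `S_OZ`.
`Good`: `zero`, `zero0`: `p k i = 0` iff the corner is outer; `s1`, `s2`: the angles `1`, `4` (`2`, `5`)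
are in the same corner; `s3`, `s4`: the outer corners of a piece are among `lc`, `rc`; `z1`, `z2`:
`cor` does not change.  `Z`: `a` is a solution for `N - 1` iff `a - (N - 1) a0 ∈ L` (for `a ≥ 0`:
`S_OZ`).  The last equation is `S_DIM` and `S_CN`. -/
def S_GD : Prop := S_SO → S_OZ → S_SUR → S_NC → S_SP → S_DIM → S_CN → S_UNR →
  ∀ D : List Pc, Val D 1 → Pri D 1 → D ≠ [] → ∀ p : Fin D.length → Fin 6 → ℝ, Pos D p →
  ∃ X : Net D.length, X.Good p ∧ X.Ang = AS D ∧
    (∀ N : ℕ, 0 < N → SD N D [0, 0] = X.Z (ws D) N) ∧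
    2 * D.length + Module.finrank ℤ X.L = nV p + 3

/-- **the volume conjecture for fully augmented links.**

Proof.  `S_J`, `S_GD`, `S_NET` and `2 c + d = nV + 3`. -/
def S_VC : Prop := S_J → S_G → TRall → S_Z → S_GD → S_SO → S_OZ → S_SUR → S_NC → S_SP → S_DIM →
  S_CN → S_UNR → S_NET → S_T1 → S_T2 → S_GI → S_LB → S_MAX → S_CR → S_NB → S_NL →
  ∀ D : List Pc, Val D 1 → Pri D 1 → D ≠ [] → (∃ p, Pos D p) → ∃ z : ℝ, 0 < z ∧
  Tendsto (fun N : ℕ => ‖run N (rt N) (D.flatMap els)
    (fun l => if l.map (fun x => (x : ℕ)) = [0] then 1 else 0) (if h : 0 < N then [⟨0, h⟩] else [])‖ /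
    (N * √N * Real.exp (N * sSup (fV '' AS D)))) atTop (𝓝 z)

end Pool.Agent.Q99.FAL
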